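import Pool.Agent.H.MP_8219a1_an.C

set_option autoImplicit false

namespace Pool.Agent.Results.MP_8219a1_an.No

open Pool.Agent.H.MP_8219a1_an

universe u

theorem result : ∃ (A : Type) (_ : CStarAlgebra A), IsSimple A ∧
    ∃ φ ψ : A →L[ℂ] ℂ, IsPure φ ∧ IsPure ψ ∧
      ∀ (B : Type u) [NonUnitalCStarAlgebra B] (ι : A →⋆ₙₐ[ℂ] B), Function.Injective ι →
        ∀ φ' ψ' : B →L[ℂ] ℂ, UniqueExt ι φ φ' → UniqueExt ι ψ ψ' →
          ∀ α : B ≃⋆ₐ[ℂ] B, ¬ ∀ b, φ' b = ψ' (α b) := by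
  obtain ⟨ψ, ⟨U, hU⟩, hN⟩ := ex_psi
  exact ⟨AA, inferInstance, simple, dg 0, ψ, (over_dg 0).pure, hU.pure,
    fun B _ ι hι φ' ψ' h1 h2 α => no_ext
      (fun m : ℕ => τ (Clo.coset (n := m + 1) (by positivity) 0) 0) (over_dg 0).one hU.one hU.1
      (fun m => (over_dg 0).2 _ _ (Ultrafilter.mem_pure.2 (by simp))) gdelta hN ι hι h1 h2 α⟩

end Pool.Agent.Results.MP_8219a1_an.No
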